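import Pool.Agent.Work.MP_e350e5_ric.Interface

set_option autoImplicit false

namespace Pool.Ric

theorem CHO_step (s j : ℕ) : (4 * s + j + 1).choose (3 * s) ≤ 4 * (4 * s + j).choose (3 * s) := by
  have h := Nat.choose_mul_succ_eq (4 * s + j) (3 * s)
  have e : 4 * s + j + 1 - 3 * s = s + j + 1 := by omega
  rw [e] at h
  have h1 : (4 * s + j).choose (3 * s) * (4 * s + j + 1) ≤
      (4 * s + j).choose (3 * s) * (4 * (s + j + 1)) := Nat.mul_le_mul_left _ (by omega)
  have h2 : (4 * s + j + 1).choose (3 * s) * (s + j + 1) ≤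
      (4 * (4 * s + j).choose (3 * s)) * (s + j + 1) := by
    calc (4 * s + j + 1).choose (3 * s) * (s + j + 1)
        = (4 * s + j).choose (3 * s) * (4 * s + j + 1) := h.symm
      _ ≤ (4 * s + j).choose (3 * s) * (4 * (s + j + 1)) := h1
      _ = (4 * (4 * s + j).choose (3 * s)) * (s + j + 1) := by ring
  exact Nat.le_of_mul_le_mul_right h2 (by omega)

theorem p_CHO : S_CHO := by
  intro s
  have h0 := CHO_step s 0
  have h1 := CHO_step s 1
  have h2 := CHO_step s 2
  simp only [Nat.add_zero] at h0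
  have e1 : 4 * s + 1 + 1 = 4 * s + 2 := rfl
  have e2 : 4 * s + 2 + 1 = 4 * s + 3 := rfl
  rw [e1] at h1
  rw [e2] at h2
  omega

end Pool.Ric
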