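import Pool.Agent.Work.MP_e350e5_ric.Interface

set_option autoImplicit false

namespace Pool.Ric

theorem CV_da (u : ℝ) (o : EuclideanSpace ℝ (Fin 3)) :
    dist (pa u) o ^ 2 = (u - o 0) ^ 2 + (o 1) ^ 2 + (1 - o 2) ^ 2 := by
  rw [EuclideanSpace.dist_eq, Real.sq_sqrt (Finset.sum_nonneg fun i _ => sq_nonneg _)]
  simp only [Fin.sum_univ_three, Real.dist_eq, sq_abs, pa]
  simp

theorem CV_db (u : ℝ) (o : EuclideanSpace ℝ (Fin 3)) :
    dist (pb u) o ^ 2 = (o 0) ^ 2 + (u - o 1) ^ 2 + (1 + o 2) ^ 2 := by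
  rw [EuclideanSpace.dist_eq, Real.sq_sqrt (Finset.sum_nonneg fun i _ => sq_nonneg _)]
  simp only [Fin.sum_univ_three, Real.dist_eq, sq_abs, pb]
  simp
  ring

theorem CV_key (u w v c k r2 : ℝ) (h1 : u < w) (h2 : w < v) (hu : r2 = (u - c) ^ 2 + k)
    (hv : r2 = (v - c) ^ 2 + k) : (w - c) ^ 2 + k < r2 := by
  have h3 : (v - u) * (r2 - ((w - c) ^ 2 + k)) = (v - u) * ((w - u) * (v - w)) := by
    have e : (v - u) * r2 = (v - w) * ((u - c) ^ 2 + k) + (w - u) * ((v - c) ^ 2 + k) := by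
      rw [← hu, ← hv]; ring
    linear_combination e
  have h4 : r2 - ((w - c) ^ 2 + k) = (w - u) * (v - w) :=
    mul_left_cancel₀ (sub_pos.2 (h1.trans h2)).ne' h3
  nlinarith [mul_pos (sub_pos.2 h1) (sub_pos.2 h2)]

theorem p_CV : S_CV := by
  intro u w v o r h1 h2
  constructor
  · intro hu hv
    have hr : 0 ≤ r := hu ▸ dist_nonneg
    apply lt_of_pow_lt_pow_left₀ 2 hr
    rw [CV_da]
    have e1 := CV_da u o
    have e2 := CV_da v o
    rw [hu] at e1
    rw [hv] at e2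
    have := CV_key u w v (o 0) ((o 1) ^ 2 + (1 - o 2) ^ 2) (r ^ 2) h1 h2 (by linarith) (by linarith)
    linarith
  · intro hu hv
    have hr : 0 ≤ r := hu ▸ dist_nonneg
    apply lt_of_pow_lt_pow_left₀ 2 hr
    rw [CV_db]
    have e1 := CV_db u o
    have e2 := CV_db v o
    rw [hu] at e1
    rw [hv] at e2
    have := CV_key u w v (o 1) ((o 0) ^ 2 + (1 + o 2) ^ 2) (r ^ 2) h1 h2 (by linarith) (by linarith)
    linarith

end Pool.Ric
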