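import Pool.Agent.Work.MP_e350e5_ric.Interface

/-! Block LOW (second copy, helper41). -/

set_option autoImplicit false

namespace Pool.Ric

theorem LOWx_succ (X : Finset ℝ) (u : ℝ) (h : ∃ w ∈ X, u < w) :
    ∃ u', u' ∈ X ∧ u < u' ∧ ∀ w ∈ X, w ≤ u ∨ u' ≤ w := by
  classical
  have hne : (X.filter fun w => u < w).Nonempty := by
    obtain ⟨w, hw, hu⟩ := h
    exact ⟨w, Finset.mem_filter.mpr ⟨hw, hu⟩⟩
  have hm := Finset.min'_mem _ hne
  rw [Finset.mem_filter] at hm
  refine ⟨_, hm.1, hm.2, ?_⟩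
  intro w hw
  by_cases hwu : w ≤ u
  · exact Or.inl hwu
  · exact Or.inr (Finset.min'_le _ _ (Finset.mem_filter.mpr ⟨hw, not_le.mp hwu⟩))

theorem LOWx_ext (X : Finset ℝ) (hX : X.Nonempty) : ∃ f : ℝ → ℝ, ∀ u ∈ X.erase (X.max' hX),
    u ∈ X ∧ f u ∈ X ∧ u < f u ∧ ∀ w ∈ X, w ≤ u ∨ f u ≤ w := by
  have : ∀ u, u ∈ X.erase (X.max' hX) → ∃ u', u ∈ X ∧ u' ∈ X ∧ u < u' ∧ ∀ w ∈ X, w ≤ u ∨ u' ≤ w := by
    intro u hu
    rw [Finset.mem_erase] at hu
    obtain ⟨u', h⟩ := LOWx_succ X u ⟨X.max' hX, X.max'_mem hX,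
      lt_of_le_of_ne (X.le_max' u hu.2) hu.1⟩
    exact ⟨u', hu.2, h⟩
  choose! f hf using this
  exact ⟨f, hf⟩

theorem LOWx_ab (x y : ℝ) : pa x ≠ pb y := by
  intro h
  have := congrArg (fun p : EuclideanSpace ℝ (Fin 3) => p 2) h
  simp [pa, pb] at this
  norm_num at this

theorem LOWx_a {x y : ℝ} (h : pa x = pa y) : x = y := by
  have := congrArg (fun p : EuclideanSpace ℝ (Fin 3) => p 0) h
  simpa [pa] using this

theorem LOWx_b {x y : ℝ} (h : pb x = pb y) : x = y := by
  have := congrArg (fun p : EuclideanSpace ℝ (Fin 3) => p 1) h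
  simpa [pb] using this

theorem p_LOWx (hQT : S_QT) : S_LOW := by
  classical
  intro X Y T hT
  rcases X.eq_empty_or_nonempty with rfl | hX
  · simp
  rcases Y.eq_empty_or_nonempty with rfl | hY
  · simp
  obtain ⟨f, hf⟩ := LOWx_ext X hX
  obtain ⟨g, hg⟩ := LOWx_ext Y hY
  have hc : (X.card - 1) * (Y.card - 1) =
      ((X.erase (X.max' hX)) ×ˢ (Y.erase (Y.max' hY))).card := by
    rw [Finset.card_product, Finset.card_erase_of_mem (X.max'_mem hX),
      Finset.card_erase_of_mem (Y.max'_mem hY)]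
  rw [hc]
  refine Finset.card_le_card_of_injOn
    (fun p => ({pa p.1, pa (f p.1), pb p.2, pb (g p.2)} : Finset (EuclideanSpace ℝ (Fin 3)))) ?_ ?_
  · rintro ⟨u, v⟩ hp
    rw [Finset.mem_coe, Finset.mem_product] at hp
    obtain ⟨h1, h2, h3, h4⟩ := hf u hp.1
    obtain ⟨k1, k2, k3, k4⟩ := hg v hp.2
    exact hQT X Y T u (f u) v (g v) hT h1 h2 k1 k2 h3 k3 h4 k4
  · rintro ⟨u, v⟩ hp ⟨w, z⟩ hq he
    rw [Finset.mem_coe, Finset.mem_product] at hp hq
    obtain ⟨h1, h2, h3, h4⟩ := hf u hp.1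
    obtain ⟨k1, k2, k3, k4⟩ := hg v hp.2
    obtain ⟨h1', h2', h3', h4'⟩ := hf w hq.1
    obtain ⟨k1', k2', k3', k4'⟩ := hg z hq.2
    simp only at he
    have e1 : pa u ∈ ({pa w, pa (f w), pb z, pb (g z)} : Finset (EuclideanSpace ℝ (Fin 3))) := by
      rw [← he]; simp
    have e2 : pa w ∈ ({pa u, pa (f u), pb v, pb (g v)} : Finset (EuclideanSpace ℝ (Fin 3))) := by
      rw [he]; simp
    have e3 : pb v ∈ ({pa w, pa (f w), pb z, pb (g z)} : Finset (EuclideanSpace ℝ (Fin 3))) := by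
      rw [← he]; simp
    have e4 : pb z ∈ ({pa u, pa (f u), pb v, pb (g v)} : Finset (EuclideanSpace ℝ (Fin 3))) := by
      rw [he]; simp
    simp only [Finset.mem_insert, Finset.mem_singleton] at e1 e2 e3 e4
    have r1 : u = w ∨ u = f w := by
      rcases e1 with h | h | h | h
      · exact Or.inl (LOWx_a h)
      · exact Or.inr (LOWx_a h)
      · exact absurd h (LOWx_ab _ _)
      · exact absurd h (LOWx_ab _ _)
    have r2 : w = u ∨ w = f u := by
      rcases e2 with h | h | h | h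
      · exact Or.inl (LOWx_a h)
      · exact Or.inr (LOWx_a h)
      · exact absurd h (LOWx_ab _ _)
      · exact absurd h (LOWx_ab _ _)
    have r3 : v = z ∨ v = g z := by
      rcases e3 with h | h | h | h
      · exact absurd h.symm (LOWx_ab _ _)
      · exact absurd h.symm (LOWx_ab _ _)
      · exact Or.inl (LOWx_b h)
      · exact Or.inr (LOWx_b h)
    have r4 : z = v ∨ z = g v := by
      rcases e4 with h | h | h | h
      · exact absurd h.symm (LOWx_ab _ _)
      · exact absurd h.symm (LOWx_ab _ _)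
      · exact Or.inl (LOWx_b h)
      · exact Or.inr (LOWx_b h)
    have s1 : u = w := by
      rcases r1 with h | h
      · exact h
      · rcases r2 with h' | h'
        · exact h'.symm
        · exfalso; linarith
    have s2 : v = z := by
      rcases r3 with h | h
      · exact h
      · rcases r4 with h' | h'
        · exact h'.symm
        · exfalso; linarith
    rw [s1, s2]

end Pool.Ric
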