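import Pool.Agent.Work.MP_e350e5_ric.Interface

/-! Block QT (helper41). -/

set_option autoImplicit false

namespace Pool.Ric

theorem QT_dist (p q : (EuclideanSpace ℝ (Fin 3))) : dist p q ^ 2 = (p 0 - q 0) ^ 2 + (p 1 - q 1) ^ 2 + (p 2 - q 2) ^ 2 := by
  rw [EuclideanSpace.dist_eq, Real.sq_sqrt (by positivity), Fin.sum_univ_three]
  simp only [Real.dist_eq, sq_abs]

theorem QT_sum {S : Finset (EuclideanSpace ℝ (Fin 3))} {w : (EuclideanSpace ℝ (Fin 3)) → ℝ} {G : (EuclideanSpace ℝ (Fin 3))} (h : ∑ y ∈ S, w y • y = G) (j : Fin 3) :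
    ∑ y ∈ S, w y * y j = G j := by
  rw [← h]
  simp [Finset.sum_apply]

/-- affine functions of the barycentre -/
theorem QT_aff {S : Finset (EuclideanSpace ℝ (Fin 3))} {w : (EuclideanSpace ℝ (Fin 3)) → ℝ} {G : (EuclideanSpace ℝ (Fin 3))} (h1 : ∑ y ∈ S, w y = 1)
    (h : ∑ y ∈ S, w y • y = G) (k0 k1 k2 k3 : ℝ) :
    ∑ y ∈ S, w y * (k0 + k1 * y 0 + k2 * y 1 + k3 * y 2) = k0 + k1 * G 0 + k2 * G 1 + k3 * G 2 := by
  have e : ∀ y ∈ S, w y * (k0 + k1 * y 0 + k2 * y 1 + k3 * y 2) =
      k0 * w y + k1 * (w y * y 0) + k2 * (w y * y 1) + k3 * (w y * y 2) := by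
    intro y _
    ring
  rw [Finset.sum_congr rfl e, Finset.sum_add_distrib, Finset.sum_add_distrib,
    Finset.sum_add_distrib, ← Finset.mul_sum, ← Finset.mul_sum, ← Finset.mul_sum, ← Finset.mul_sum,
    h1, QT_sum h, QT_sum h, QT_sum h, mul_one]

theorem QT_pa (u : ℝ) : (pa u) 0 = u ∧ (pa u) 1 = 0 ∧ (pa u) 2 = 1 := by
  simp [pa]

theorem QT_pb (u : ℝ) : (pb u) 0 = 0 ∧ (pb u) 1 = u ∧ (pb u) 2 = -1 := by
  simp [pb]

theorem p_QT : S_QT := by
  classical
  intro X Y T u u' v v' hT hu hu' hv hv' huu hvv hX hY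
  set R : Finset (EuclideanSpace ℝ (Fin 3)) := X.image pa ∪ Y.image pb with hR
  set Q : Finset (EuclideanSpace ℝ (Fin 3)) := {pa u, pa u', pb v, pb v'} with hQ
  set G : (EuclideanSpace ℝ (Fin 3)) := WithLp.toLp 2 ![(u + u') / 4, (v + v') / 4, 0] with hG
  have G0 : G 0 = (u + u') / 4 := by simp [hG]
  have G1 : G 1 = (v + v') / 4 := by simp [hG]
  have G2 : G 2 = 0 := by simp [hG]
  obtain ⟨a0, a1, a2⟩ := QT_pa u
  obtain ⟨b0, b1, b2⟩ := QT_pa u'
  obtain ⟨c0, c1, c2⟩ := QT_pb v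
  obtain ⟨d0, d1, d2⟩ := QT_pb v'
  have mu : pa u ∈ R := Finset.mem_union_left _ (Finset.mem_image_of_mem _ hu)
  have mu' : pa u' ∈ R := Finset.mem_union_left _ (Finset.mem_image_of_mem _ hu')
  have mv : pb v ∈ R := Finset.mem_union_right _ (Finset.mem_image_of_mem _ hv)
  have mv' : pb v' ∈ R := Finset.mem_union_right _ (Finset.mem_image_of_mem _ hv')
  have hQR : Q ⊆ R := by
    intro q hq
    simp only [hQ, Finset.mem_insert, Finset.mem_singleton] at hq
    rcases hq with rfl | rfl | rfl | rfl <;> assumption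
  -- G is in the hull
  have hGR : G ∈ convexHull ℝ (R : Set (EuclideanSpace ℝ (Fin 3))) := by
    have hc := convex_convexHull ℝ (R : Set (EuclideanSpace ℝ (Fin 3)))
    have m1 := subset_convexHull ℝ (R : Set (EuclideanSpace ℝ (Fin 3))) (Finset.mem_coe.mpr mu)
    have m2 := subset_convexHull ℝ (R : Set (EuclideanSpace ℝ (Fin 3))) (Finset.mem_coe.mpr mu')
    have m3 := subset_convexHull ℝ (R : Set (EuclideanSpace ℝ (Fin 3))) (Finset.mem_coe.mpr mv)
    have m4 := subset_convexHull ℝ (R : Set (EuclideanSpace ℝ (Fin 3))) (Finset.mem_coe.mpr mv')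
    have m12 := hc m1 m2 (a := 1 / 2) (b := 1 / 2) (by norm_num) (by norm_num) (by norm_num)
    have m34 := hc m3 m4 (a := 1 / 2) (b := 1 / 2) (by norm_num) (by norm_num) (by norm_num)
    have m := hc m12 m34 (a := 1 / 2) (b := 1 / 2) (by norm_num) (by norm_num) (by norm_num)
    convert m using 1
    ext j
    fin_cases j
    · simp [hG, pa, pb]; ring
    · simp [hG, pa, pb]; ring
    · simp [hG, pa, pb]
  obtain ⟨S, hST, hGS⟩ := (hT.cover G).mpr hGR
  obtain ⟨hSR, hS4, -, o, r, hr, hro⟩ := hT.del S hST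
  obtain ⟨w, hw0, hw1, hwG⟩ := (Finset.mem_convexHull' ).mp hGS
  have hr0 : ∀ p ∈ R, r ^ 2 ≤ (p 0 - o 0) ^ 2 + (p 1 - o 1) ^ 2 + (p 2 - o 2) ^ 2 := by
    intro p hp
    rw [← QT_dist]
    have h1 := hro p hp
    have hr1 : 0 ≤ r := by
      obtain ⟨q, hq⟩ := Finset.card_pos.mp (by rw [hS4]; norm_num : 0 < S.card)
      rw [← hr q hq]
      exact dist_nonneg
    exact pow_le_pow_left₀ hr1 h1 2
  have hr1 : ∀ p ∈ S, (p 0 - o 0) ^ 2 + (p 1 - o 1) ^ 2 + (p 2 - o 2) ^ 2 = r ^ 2 := by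
    intro p hp
    rw [← QT_dist, hr p hp]
  -- the power with respect to the sphere of Q
  set D : (EuclideanSpace ℝ (Fin 3)) → ℝ := fun p => p 0 ^ 2 + p 1 ^ 2 + p 2 ^ 2 - (u + u') * p 0 - (v + v') * p 1
    - (v * v' - u * u') / 2 * p 2 + (v * v' + u * u') / 2 - 1 with hD
  have hDa : ∀ x, D (pa x) = (x - u) * (x - u') := by
    intro x
    obtain ⟨e0, e1, e2⟩ := QT_pa x
    simp only [hD, e0, e1, e2]
    ring
  have hDb : ∀ x, D (pb x) = (x - v) * (x - v') := by
    intro x
    obtain ⟨e0, e1, e2⟩ := QT_pb x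
    simp only [hD, e0, e1, e2]
    ring
  have hD0 : ∀ p ∈ R, 0 ≤ D p := by
    intro p hp
    rcases Finset.mem_union.mp hp with hp | hp
    · obtain ⟨x, hx, rfl⟩ := Finset.mem_image.mp hp
      rw [hDa]
      rcases hX x hx with h | h
      · nlinarith
      · nlinarith
    · obtain ⟨x, hx, rfl⟩ := Finset.mem_image.mp hp
      rw [hDb]
      rcases hY x hx with h | h
      · nlinarith
      · nlinarith
  have hDQ : ∀ p ∈ R, D p = 0 → p ∈ Q := by
    intro p hp h0
    rcases Finset.mem_union.mp hp with hp | hp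
    · obtain ⟨x, hx, rfl⟩ := Finset.mem_image.mp hp
      rw [hDa] at h0
      rcases mul_eq_zero.mp h0 with h | h
      · rw [sub_eq_zero.mp h]; simp [hQ]
      · rw [sub_eq_zero.mp h]; simp [hQ]
    · obtain ⟨x, hx, rfl⟩ := Finset.mem_image.mp hp
      rw [hDb] at h0
      rcases mul_eq_zero.mp h0 with h | h
      · rw [sub_eq_zero.mp h]; simp [hQ]
      · rw [sub_eq_zero.mp h]; simp [hQ]
  -- the sum of the powers is at most 0
  have hsum : ∑ p ∈ S, w p * D p ≤ 0 := by
    have e : ∀ p ∈ S, w p * D p = w p * (((v * v' + u * u') / 2 - 1 + r ^ 2 - o 0 ^ 2 - o 1 ^ 2 - o 2 ^ 2)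
        + (2 * o 0 - (u + u')) * p 0 + (2 * o 1 - (v + v')) * p 1
        + (2 * o 2 - (v * v' - u * u') / 2) * p 2) := by
      intro p hp
      have := hr1 p hp
      congr 1
      simp only [hD]
      linarith
    rw [Finset.sum_congr rfl e, QT_aff hw1 hwG, G0, G1, G2]
    have q1 := hr0 _ mu
    have q2 := hr0 _ mu'
    have q3 := hr0 _ mv
    have q4 := hr0 _ mv'
    rw [a0, a1, a2] at q1
    rw [b0, b1, b2] at q2
    rw [c0, c1, c2] at q3
    rw [d0, d1, d2] at q4
    nlinarith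
  have hz : ∀ p ∈ S, w p * D p = 0 := by
    have h1 : ∀ p ∈ S, 0 ≤ w p * D p := fun p hp => mul_nonneg (hw0 p hp) (hD0 p (hSR hp))
    have h2 := le_antisymm hsum (Finset.sum_nonneg h1)
    exact (Finset.sum_eq_zero_iff_of_nonneg h1).mp h2
  have hwQ : ∀ p ∈ S, w p ≠ 0 → p ∈ Q := by
    intro p hp hw
    rcases mul_eq_zero.mp (hz p hp) with h | h
    · exact absurd h hw
    · exact hDQ p (hSR hp) h
  -- each point of Q is in S
  have key : ∀ (q : (EuclideanSpace ℝ (Fin 3))) (k0 k1 k2 k3 : ℝ),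
      (∀ p ∈ Q, p ≠ q → k0 + k1 * p 0 + k2 * p 1 + k3 * p 2 = 0) →
      k0 + k1 * G 0 + k2 * G 1 + k3 * G 2 ≠ 0 → q ∈ S := by
    intro q k0 k1 k2 k3 h1 h2
    rw [← QT_aff hw1 hwG] at h2
    obtain ⟨p, hp, hne⟩ := Finset.exists_ne_zero_of_sum_ne_zero h2
    have hpq : p = q := by
      by_contra hcon
      apply hne
      rw [h1 p (hwQ p hp (left_ne_zero_of_mul hne)) hcon, mul_zero]
    rw [← hpq]
    exact hp
  have hab : ∀ x y, pa x ≠ pb y := by
    intro x y h
    have := congrArg (fun p : (EuclideanSpace ℝ (Fin 3)) => p 2) h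
    simp only [(QT_pa x).2.2, (QT_pb y).2.2] at this
    norm_num at this
  have s1 : pa u ∈ S := by
    refine key (pa u) (-u') 2 0 (-u') ?_ ?_
    · intro p hp hne
      simp only [hQ, Finset.mem_insert, Finset.mem_singleton] at hp
      rcases hp with rfl | rfl | rfl | rfl
      · exact absurd rfl hne
      · rw [b0, b1, b2]; ring
      · rw [c0, c1, c2]; ring
      · rw [d0, d1, d2]; ring
    · rw [G0, G1, G2]
      intro h
      linarith
  have s2 : pa u' ∈ S := by
    refine key (pa u') (-u) 2 0 (-u) ?_ ?_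
    · intro p hp hne
      simp only [hQ, Finset.mem_insert, Finset.mem_singleton] at hp
      rcases hp with rfl | rfl | rfl | rfl
      · rw [a0, a1, a2]; ring
      · exact absurd rfl hne
      · rw [c0, c1, c2]; ring
      · rw [d0, d1, d2]; ring
    · rw [G0, G1, G2]
      intro h
      linarith
  have s3 : pb v ∈ S := by
    refine key (pb v) (-v') 0 2 v' ?_ ?_
    · intro p hp hne
      simp only [hQ, Finset.mem_insert, Finset.mem_singleton] at hp
      rcases hp with rfl | rfl | rfl | rfl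
      · rw [a0, a1, a2]; ring
      · rw [b0, b1, b2]; ring
      · exact absurd rfl hne
      · rw [d0, d1, d2]; ring
    · rw [G0, G1, G2]
      intro h
      linarith
  have s4 : pb v' ∈ S := by
    refine key (pb v') (-v) 0 2 v ?_ ?_
    · intro p hp hne
      simp only [hQ, Finset.mem_insert, Finset.mem_singleton] at hp
      rcases hp with rfl | rfl | rfl | rfl
      · rw [a0, a1, a2]; ring
      · rw [b0, b1, b2]; ring
      · rw [c0, c1, c2]; ring
      · exact absurd rfl hne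
    · rw [G0, G1, G2]
      intro h
      linarith
  have hQS : Q ⊆ S := by
    intro q hq
    simp only [hQ, Finset.mem_insert, Finset.mem_singleton] at hq
    rcases hq with rfl | rfl | rfl | rfl <;> assumption
  have hQ4 : Q.card = 4 := by
    have n1 : pa u ≠ pa u' := by
      intro h
      have := congrArg (fun p : (EuclideanSpace ℝ (Fin 3)) => p 0) h
      simp only [a0, b0] at this
      linarith
    have n2 : pb v ≠ pb v' := by
      intro h
      have := congrArg (fun p : (EuclideanSpace ℝ (Fin 3)) => p 1) h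
      simp only [c1, d1] at this
      linarith
    rw [hQ, Finset.card_insert_of_notMem, Finset.card_insert_of_notMem, Finset.card_pair n2]
    · simp only [Finset.mem_insert, Finset.mem_singleton, not_or]
      exact ⟨hab _ _, hab _ _⟩
    · simp only [Finset.mem_insert, Finset.mem_singleton, not_or]
      exact ⟨n1, hab _ _, hab _ _⟩
  have : Q = S := Finset.eq_of_subset_of_card_le hQS (by rw [hQ4, hS4])
  rw [this]
  exact hST

end Pool.Ric
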