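import Pool.Agent.Work.MP_e350e5_ric.Interface

set_option autoImplicit false

namespace Pool.Ric

open Finset

theorem UP_cardM : M.card ≤ 3 := card_le_three

/-- the candidates for a tetrahedron -/
noncomputable def UP_f (n : ℕ) (p : ℝ → EuclideanSpace ℝ (Fin 3))
    (x : ℕ × Finset (EuclideanSpace ℝ (Fin 3))) : Finset (EuclideanSpace ℝ (Fin 3)) :=
  if x.2.card = 2 then insert (p ((x.1 : ℝ) / (2 * n))) (insert (p (((x.1 + 1 : ℕ) : ℝ) / (2 * n))) x.2)
  else insert (p ((x.1 : ℝ) / (2 * n))) x.2

theorem UP_core (n : ℕ) (hn : 1 ≤ n) (p : ℝ → EuclideanSpace ℝ (Fin 3))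
    (S : Finset (EuclideanSpace ℝ (Fin 3))) (hS4 : S.card = 4) (hsub : S ⊆ (U n).image p ∪ M) (r : ℝ)
    (o : EuclideanSpace ℝ (Fin 3)) (hr : ∀ q ∈ S, dist q o = r) (hout : ∀ u ∈ U n, r ≤ dist (p u) o)
    (hcv : ∀ u w v, u < w → w < v → dist (p u) o = r → dist (p v) o = r → dist (p w) o < r) :
    S ∈ (range n ×ˢ (insert M (M.powersetCard 2))).image (UP_f n p) := by
  classical
  have hn' : (0 : ℝ) < 2 * n := by
    have : (1 : ℝ) ≤ n := by exact_mod_cast hn
    linarith
  have hcard : (S \ M).card + (S ∩ M).card = 4 := by rw [card_sdiff_add_card_inter, hS4]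
  have hD3 : (S ∩ M).card ≤ 3 := (card_le_card inter_subset_right).trans UP_cardM
  have hmem : ∀ q ∈ S \ M, ∃ i < n, q = p ((i : ℝ) / (2 * n)) := by
    intro q hq
    obtain ⟨h1, h2⟩ := mem_sdiff.1 hq
    rcases mem_union.1 (hsub h1) with h | h
    · obtain ⟨u, hu, rfl⟩ := mem_image.1 h
      obtain ⟨i, hi, rfl⟩ := mem_image.1 hu
      exact ⟨i, mem_range.1 hi, rfl⟩
    · exact absurd h h2
  set I := (range n).filter (fun i : ℕ => p ((i : ℝ) / (2 * n)) ∈ S \ M) with hI
  have hIne : I.Nonempty := by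
    have h1 : (S \ M).Nonempty := card_pos.1 (by omega)
    obtain ⟨q, hq⟩ := h1
    obtain ⟨i, hi, rfl⟩ := hmem q hq
    exact ⟨i, mem_filter.2 ⟨mem_range.2 hi, hq⟩⟩
  set i := I.min' hIne with hi
  set j := I.max' hIne with hj
  have hiI : i ∈ I := min'_mem _ _
  have hjI : j ∈ I := max'_mem _ _
  obtain ⟨hin, hiS⟩ := mem_filter.1 hiI
  obtain ⟨hjn, hjS⟩ := mem_filter.1 hjI
  have hall : ∀ q ∈ S \ M, ∃ l : ℕ, i ≤ l ∧ l ≤ j ∧ q = p ((l : ℝ) / (2 * n)) := by
    intro q hq
    obtain ⟨l, hl, rfl⟩ := hmem q hq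
    have : l ∈ I := mem_filter.2 ⟨mem_range.2 hl, hq⟩
    exact ⟨l, min'_le _ _ this, le_max' _ _ this, rfl⟩
  have hdec : S = (S \ M) ∪ (S ∩ M) := (sdiff_union_inter S M).symm
  by_cases h3 : (S ∩ M).card = 3
  · have hDM : S ∩ M = M := eq_of_subset_of_card_le inter_subset_right (by rw [h3]; exact UP_cardM)
    obtain ⟨q, hq⟩ := card_eq_one.1 (show (S \ M).card = 1 by omega)
    have hqi : p ((i : ℝ) / (2 * n)) = q := by
      rw [hq] at hiS
      exact mem_singleton.1 hiS
    refine mem_image.2 ⟨(i, M), mem_product.2 ⟨hin, mem_insert_self _ _⟩, ?_⟩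
    have hM3 : M.card ≠ 2 := by
      rw [← hDM, h3]; decide
    unfold UP_f
    rw [if_neg hM3]
    show insert (p ((i : ℝ) / (2 * n))) M = S
    rw [hdec, hDM, hq, hqi]
    rfl
  · have hlt : i < j := by
      rcases lt_or_eq_of_le (min'_le I j hjI) with h | h
      · exact h
      · exfalso
        have h1 : S \ M ⊆ {p ((i : ℝ) / (2 * n))} := by
          intro q hq
          obtain ⟨l, hl1, hl2, rfl⟩ := hall q hq
          have : l = i := by
            have h' : i = j := h
            omega
          rw [this]; exact mem_singleton_self _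
        have h2 := card_le_card h1
        rw [card_singleton] at h2
        omega
    have hj1 : j = i + 1 := by
      by_contra hne
      have hlt2 : i + 1 < j := by omega
      have hjn' := mem_range.1 hjn
      have hwU : ((i + 1 : ℕ) : ℝ) / (2 * n) ∈ U n :=
        mem_image.2 ⟨i + 1, mem_range.2 (by omega), rfl⟩
      have h1 := hout _ hwU
      have h2 := hcv ((i : ℝ) / (2 * n)) (((i + 1 : ℕ) : ℝ) / (2 * n)) ((j : ℝ) / (2 * n))
        (by gcongr; omega) (by gcongr) (hr _ (mem_sdiff.1 hiS).1)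
        (hr _ (mem_sdiff.1 hjS).1)
      linarith
    have hE : S \ M = {p ((i : ℝ) / (2 * n)), p (((i + 1 : ℕ) : ℝ) / (2 * n))} := by
      apply Subset.antisymm
      · intro q hq
        obtain ⟨l, hl1, hl2, rfl⟩ := hall q hq
        rcases (show l = i ∨ l = i + 1 by omega) with h | h
        · rw [h]; simp
        · rw [h]; simp
      · intro q hq
        rcases mem_insert.1 hq with rfl | hq
        · exact hiS
        · rw [mem_singleton.1 hq, ← hj1]; exact hjS
    have hE2 : (S \ M).card ≤ 2 := by rw [hE]; exact card_le_two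
    have hD2 : (S ∩ M).card = 2 := by omega
    refine mem_image.2 ⟨(i, S ∩ M), mem_product.2 ⟨hin, mem_insert_of_mem
      (mem_powersetCard.2 ⟨inter_subset_right, hD2⟩)⟩, ?_⟩
    unfold UP_f
    rw [if_pos hD2]
    show insert (p ((i : ℝ) / (2 * n))) (insert (p (((i + 1 : ℕ) : ℝ) / (2 * n))) (S ∩ M)) = S
    conv_rhs => rw [hdec, hE]
    ext x
    simp [or_assoc]

theorem UP_count (n : ℕ) (p : ℝ → EuclideanSpace ℝ (Fin 3)) :
    ((range n ×ˢ (insert M (M.powersetCard 2))).image (UP_f n p)).card ≤ 4 * n := by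
  refine card_image_le.trans ?_
  rw [card_product, card_range]
  have h1 : (insert M (M.powersetCard 2)).card ≤ 4 := by
    refine (card_insert_le _ _).trans ?_
    rw [card_powersetCard]
    have h2 := Nat.choose_le_choose 2 UP_cardM
    have h3 : Nat.choose 3 2 = 3 := by decide
    omega
  nlinarith

theorem p_UP (hAB : S_AB) (hCV : S_CV) : S_UP := by
  classical
  intro n T hn hT
  have hn' : (0 : ℝ) < 2 * n := by
    have : (1 : ℝ) ≤ n := by exact_mod_cast hn
    linarith
  have hUb : ∀ u ∈ U n, 0 ≤ u ∧ u ≤ 1 / 2 := by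
    intro u hu
    obtain ⟨i, hi, rfl⟩ := mem_image.1 hu
    have h1 : (i : ℝ) ≤ n := by exact_mod_cast (mem_range.1 hi).le
    refine ⟨by positivity, ?_⟩
    rw [div_le_iff₀ hn']
    linarith
  have hsub : T ⊆ (range n ×ˢ (insert M (M.powersetCard 2))).image (UP_f n pa) ∪
      (range n ×ˢ (insert M (M.powersetCard 2))).image (UP_f n pb) := by
    intro S hS
    obtain ⟨hSP, h4, -, o, r, hr, hout⟩ := hT S hS
    by_cases ha : ∃ u ∈ U n, pa u ∈ S
    · obtain ⟨u, hu, huS⟩ := ha
      refine mem_union_left _ (UP_core n hn pa S h4 ?_ r o hr ?_ ?_)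
      · intro q hq
        rcases mem_union.1 (hSP hq) with h | h
        · rcases mem_union.1 h with h | h
          · exact mem_union_left _ h
          · exfalso
            obtain ⟨v, hv, rfl⟩ := mem_image.1 h
            exact hAB u v (hUb u hu).1 (hUb u hu).2 (hUb v hv).1 (hUb v hv).2 o r (hr _ huS) (hr _ hq)
              fun m hm => hout m (mem_union_right _ hm)
        · exact mem_union_right _ h
      · intro u hu
        exact hout _ (mem_union_left _ (mem_union_left _ (mem_image_of_mem _ hu)))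
      · intro u w v h1 h2
        exact (hCV u w v o r h1 h2).1
    · refine mem_union_right _ (UP_core n hn pb S h4 ?_ r o hr ?_ ?_)
      · intro q hq
        rcases mem_union.1 (hSP hq) with h | h
        · rcases mem_union.1 h with h | h
          · exfalso
            obtain ⟨v, hv, rfl⟩ := mem_image.1 h
            exact ha ⟨v, hv, hq⟩
          · exact mem_union_left _ h
        · exact mem_union_right _ h
      · intro u hu
        exact hout _ (mem_union_left _ (mem_union_right _ (mem_image_of_mem _ hu)))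
      · intro u w v h1 h2
        exact (hCV u w v o r h1 h2).2
  have h1 := card_le_card hsub
  have h2 := card_union_le ((range n ×ˢ (insert M (M.powersetCard 2))).image (UP_f n pa))
    ((range n ×ˢ (insert M (M.powersetCard 2))).image (UP_f n pb))
  have h3 := UP_count n pa
  have h4 := UP_count n pb
  omega

end Pool.Ric
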