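import Pool.Agent.Work.MP_e350e5_ric.B_FIN

set_option autoImplicit false

/-! # FIN2: the theorem for the explicit sets (helper31, copy of B_FIN of helper33) -/

namespace Pool.Ric

/-- the theorem for the explicit sets -/
theorem p_FIN2 (hUP : S_UP) (hLOW : S_LOW) (hCHO : S_CHO) : ∀ s : ℕ, 1 ≤ s →
    (A (2 * s) ∪ B (2 * s) ∪ M).card = 4 * s + 3 ∧
    (∀ T, IsTri (A (2 * s) ∪ B (2 * s) ∪ M) T → T.card ≤ 16 * s) ∧
    ((A (2 * s) ∪ B (2 * s) ∪ M).powersetCard (3 * s)).card ≤
      64 * ((A (2 * s) ∪ B (2 * s)).powersetCard (3 * s)).card ∧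
    ∀ R ∈ (A (2 * s) ∪ B (2 * s)).powersetCard (3 * s), ∀ T, IsTri R T →
      (s - 1) * (2 * s - 1) ≤ T.card := by
  classical
  intro s hs
  have hA : (A (2 * s)).card = 2 * s := by
    unfold A
    rw [Finset.card_image_of_injective _ XFIN.pa_inj, XFIN.U_card _ (by omega)]
  have hB : (B (2 * s)).card = 2 * s := by
    unfold B
    rw [Finset.card_image_of_injective _ XFIN.pb_inj, XFIN.U_card _ (by omega)]
  have hAz : ∀ p ∈ A (2 * s), p 2 = 1 := by
    intro p hp
    obtain ⟨u, _, rfl⟩ := Finset.mem_image.1 hp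
    exact XFIN.pa_z u
  have hBz : ∀ p ∈ B (2 * s), p 2 = -1 := by
    intro p hp
    obtain ⟨u, _, rfl⟩ := Finset.mem_image.1 hp
    exact XFIN.pb_z u
  have hAB : Disjoint (A (2 * s)) (B (2 * s)) := by
    rw [Finset.disjoint_left]
    intro p h1 h2
    have := (hAz p h1).symm.trans (hBz p h2)
    norm_num at this
  have hABc : (A (2 * s) ∪ B (2 * s)).card = 4 * s := by
    rw [Finset.card_union_of_disjoint hAB, hA, hB]
    ring
  have hABM : Disjoint (A (2 * s) ∪ B (2 * s)) M := by
    rw [Finset.disjoint_left]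
    intro p h1 h2
    have h3 := XFIN.M_z p h2
    rcases Finset.mem_union.1 h1 with h | h
    · have := (hAz p h).symm.trans h3
      norm_num at this
    · have := (hBz p h).symm.trans h3
      norm_num at this
  have hP : (A (2 * s) ∪ B (2 * s) ∪ M).card = 4 * s + 3 := by
    rw [Finset.card_union_of_disjoint hABM, hABc, XFIN.M_card]
  refine ⟨hP, ?_, ?_, ?_⟩
  · intro T hT
    have := hUP (2 * s) T (by omega) hT.del
    omega
  · rw [Finset.card_powersetCard, Finset.card_powersetCard, hP, hABc]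
    exact hCHO s
  · intro R hR T hT
    rw [Finset.mem_powersetCard] at hR
    obtain ⟨hRs, hRc⟩ := hR
    obtain ⟨X, hX⟩ : ∃ X : Finset ℝ, X = (U (2 * s)).filter fun u => pa u ∈ R := ⟨_, rfl⟩
    obtain ⟨Y, hY⟩ : ∃ Y : Finset ℝ, Y = (U (2 * s)).filter fun u => pb u ∈ R := ⟨_, rfl⟩
    have hRXY : R = X.image pa ∪ Y.image pb := by
      ext p
      rw [Finset.mem_union, Finset.mem_image, Finset.mem_image]
      constructor
      · intro hp
        rcases Finset.mem_union.1 (hRs hp) with h | h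
        · obtain ⟨u, hu, rfl⟩ := Finset.mem_image.1 h
          exact Or.inl ⟨u, by rw [hX, Finset.mem_filter]; exact ⟨hu, hp⟩, rfl⟩
        · obtain ⟨u, hu, rfl⟩ := Finset.mem_image.1 h
          exact Or.inr ⟨u, by rw [hY, Finset.mem_filter]; exact ⟨hu, hp⟩, rfl⟩
      · rintro (⟨u, hu, rfl⟩ | ⟨u, hu, rfl⟩)
        · rw [hX, Finset.mem_filter] at hu
          exact hu.2
        · rw [hY, Finset.mem_filter] at hu
          exact hu.2
    have hdis : Disjoint (X.image pa) (Y.image pb) := by
      rw [Finset.disjoint_left]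
      intro p h1 h2
      obtain ⟨u, _, rfl⟩ := Finset.mem_image.1 h1
      obtain ⟨v, _, hv⟩ := Finset.mem_image.1 h2
      have h3 : pb v 2 = pa u 2 := by rw [hv]
      rw [XFIN.pa_z, XFIN.pb_z] at h3
      norm_num at h3
    have hcard : X.card + Y.card = 3 * s := by
      rw [← hRc, hRXY, Finset.card_union_of_disjoint hdis, Finset.card_image_of_injective _ XFIN.pa_inj,
        Finset.card_image_of_injective _ XFIN.pb_inj]
    have hXc : X.card ≤ 2 * s := by
      rw [hX]
      exact (Finset.card_filter_le _ _).trans (XFIN.U_card _ (by omega)).le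
    have hYc : Y.card ≤ 2 * s := by
      rw [hY]
      exact (Finset.card_filter_le _ _).trans (XFIN.U_card _ (by omega)).le
    rw [hRXY] at hT
    exact (XFIN.arith s X.card Y.card hs hXc hYc hcard).trans (hLOW X Y T hT)

end Pool.Ric
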