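import Pool.Agent.Work.MP_e350e5_ric.Interface

/-!
# Block AB, second copy
-/

set_option autoImplicit false

namespace Pool.Ric

theorem ABx_d (p o : EuclideanSpace ℝ (Fin 3)) :
    dist p o ^ 2 = (p 0 - o 0) ^ 2 + (p 1 - o 1) ^ 2 + (p 2 - o 2) ^ 2 := by
  rw [EuclideanSpace.dist_eq, Real.sq_sqrt (Finset.sum_nonneg fun i _ => sq_nonneg _),
    Fin.sum_univ_three, Real.dist_eq, Real.dist_eq, Real.dist_eq, sq_abs, sq_abs, sq_abs]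

theorem p_ABx : S_AB := by
  intro u v hu hu2 hv hv2 o r h1 h2 h3
  have hr : 0 ≤ r := by
    rw [← h1]
    exact dist_nonneg
  have e1 : (u - o 0) ^ 2 + (0 - o 1) ^ 2 + (1 - o 2) ^ 2 = r ^ 2 := by
    rw [← h1, ABx_d]
    rfl
  have e2 : (0 - o 0) ^ 2 + (v - o 1) ^ 2 + (-1 - o 2) ^ 2 = r ^ 2 := by
    rw [← h2, ABx_d]
    rfl
  have e3 : r ^ 2 ≤ (0 - o 0) ^ 2 + (0 - o 1) ^ 2 + (0 - o 2) ^ 2 := by
    have h := pow_le_pow_left₀ hr (h3 (WithLp.toLp 2 ![0, 0, 0]) (by simp [M])) 2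
    rw [ABx_d] at h
    exact h
  have e4 : r ^ 2 ≤ (1 / 2 - o 0) ^ 2 + (0 - o 1) ^ 2 + (0 - o 2) ^ 2 := by
    have h := pow_le_pow_left₀ hr (h3 (WithLp.toLp 2 ![1 / 2, 0, 0]) (by simp [M])) 2
    rw [ABx_d] at h
    exact h
  have e5 : r ^ 2 ≤ (0 - o 0) ^ 2 + (1 / 2 - o 1) ^ 2 + (0 - o 2) ^ 2 := by
    have h := pow_le_pow_left₀ hr (h3 (WithLp.toLp 2 ![0, 1 / 2, 0]) (by simp [M])) 2
    rw [ABx_d] at h
    exact h
  have f3 := mul_nonneg (show 0 ≤ 1 - u - v by linarith) (sub_nonneg.2 e3)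
  have f4 := mul_nonneg hu (sub_nonneg.2 e4)
  have f5 := mul_nonneg hv (sub_nonneg.2 e5)
  nlinarith [sq_nonneg u, sq_nonneg v]

end Pool.Ric
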