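import Pool.Agent.Work.MP_e350e5_ric.Interface

set_option autoImplicit false

namespace Pool.Ric

theorem p_ABy : S_AB := by
  intro u v hu0 hu1 hv0 hv1 o r ha hb hM
  have hd : ∀ p : EuclideanSpace ℝ (Fin 3),
      dist p o ^ 2 = (p 0 - o 0) ^ 2 + (p 1 - o 1) ^ 2 + (p 2 - o 2) ^ 2 := by
    intro p
    rw [EuclideanSpace.dist_eq, Real.sq_sqrt (by positivity), Fin.sum_univ_three]
    simp only [Real.dist_eq, sq_abs]
  have hr : 0 ≤ r := ha ▸ dist_nonneg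
  have e1 : r ^ 2 = (u - o 0) ^ 2 + (0 - o 1) ^ 2 + (1 - o 2) ^ 2 := by
    rw [← ha, hd]
    simp [pa]
  have e2 : r ^ 2 = (0 - o 0) ^ 2 + (v - o 1) ^ 2 + (-1 - o 2) ^ 2 := by
    rw [← hb, hd]
    simp [pb]
  have m1 : r ^ 2 ≤ (0 - o 0) ^ 2 + (0 - o 1) ^ 2 + (0 - o 2) ^ 2 := by
    have h := pow_le_pow_left₀ hr (hM (WithLp.toLp 2 ![0, 0, 0]) (by simp [M])) 2
    rw [hd] at h
    simpa using h
  have m2 : r ^ 2 ≤ (1 / 2 - o 0) ^ 2 + (0 - o 1) ^ 2 + (0 - o 2) ^ 2 := by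
    have h := pow_le_pow_left₀ hr (hM (WithLp.toLp 2 ![1 / 2, 0, 0]) (by simp [M])) 2
    rw [hd] at h
    simpa using h
  have m3 : r ^ 2 ≤ (0 - o 0) ^ 2 + (1 / 2 - o 1) ^ 2 + (0 - o 2) ^ 2 := by
    have h := pow_le_pow_left₀ hr (hM (WithLp.toLp 2 ![0, 1 / 2, 0]) (by simp [M])) 2
    rw [hd] at h
    simpa using h
  have w1 := mul_nonneg (show (0 : ℝ) ≤ 1 - u - v by linarith) (sub_nonneg.2 m1)
  have w2 := mul_nonneg hu0 (sub_nonneg.2 m2)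
  have w3 := mul_nonneg hv0 (sub_nonneg.2 m3)
  nlinarith [sq_nonneg u, sq_nonneg v]

end Pool.Ric
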