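import Pool.Agent.Work.MP_e350e5_ric.Interface

set_option autoImplicit false

/-! # Block FIN (helper33) -/

namespace Pool.Ric

namespace XFIN

theorem pa_z (u : ℝ) : pa u 2 = 1 := by simp [pa]

theorem pb_z (u : ℝ) : pb u 2 = -1 := by simp [pb]

theorem pa_inj : Function.Injective pa := by
  intro u v h
  have : pa u 0 = pa v 0 := by rw [h]
  simpa [pa] using this

theorem pb_inj : Function.Injective pb := by
  intro u v h
  have : pb u 1 = pb v 1 := by rw [h]
  simpa [pb] using this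

theorem M_z (p : EuclideanSpace ℝ (Fin 3)) (h : p ∈ M) : p 2 = 0 := by
  simp only [M, Finset.mem_insert, Finset.mem_singleton] at h
  rcases h with rfl | rfl | rfl <;> simp

theorem M_card : M.card = 3 := by
  have h1 : (WithLp.toLp 2 ![0, 0, 0] : EuclideanSpace ℝ (Fin 3)) ≠ WithLp.toLp 2 ![1 / 2, 0, 0] := by
    intro h
    have : (WithLp.toLp 2 ![0, 0, 0] : EuclideanSpace ℝ (Fin 3)) 0 =
      (WithLp.toLp 2 ![1 / 2, 0, 0] : EuclideanSpace ℝ (Fin 3)) 0 := by rw [h]
    simp at this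
  have h2 : (WithLp.toLp 2 ![0, 0, 0] : EuclideanSpace ℝ (Fin 3)) ≠ WithLp.toLp 2 ![0, 1 / 2, 0] := by
    intro h
    have : (WithLp.toLp 2 ![0, 0, 0] : EuclideanSpace ℝ (Fin 3)) 1 =
      (WithLp.toLp 2 ![0, 1 / 2, 0] : EuclideanSpace ℝ (Fin 3)) 1 := by rw [h]
    simp at this
  have h3 : (WithLp.toLp 2 ![1 / 2, 0, 0] : EuclideanSpace ℝ (Fin 3)) ≠ WithLp.toLp 2 ![0, 1 / 2, 0] := by
    intro h
    have : (WithLp.toLp 2 ![1 / 2, 0, 0] : EuclideanSpace ℝ (Fin 3)) 0 =
      (WithLp.toLp 2 ![0, 1 / 2, 0] : EuclideanSpace ℝ (Fin 3)) 0 := by rw [h]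
    simp at this
  unfold M
  rw [Finset.card_insert_of_notMem, Finset.card_insert_of_notMem, Finset.card_singleton]
  · rw [Finset.mem_singleton]
    exact h3
  · rw [Finset.mem_insert, Finset.mem_singleton]
    rintro (h | h)
    · exact h1 h
    · exact h2 h

theorem U_card (n : ℕ) (hn : 1 ≤ n) : (U n).card = n := by
  unfold U
  rw [Finset.card_image_of_injOn, Finset.card_range]
  intro i _ j _ h
  have hn' : (2 * (n : ℝ)) ≠ 0 := by positivity
  have h' : (i : ℝ) / (2 * n) = (j : ℝ) / (2 * n) := h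
  rw [div_left_inj' hn'] at h'
  exact_mod_cast h'

theorem arith (s x y : ℕ) (hs : 1 ≤ s) (hx : x ≤ 2 * s) (hy : y ≤ 2 * s) (h : x + y = 3 * s) :
    (s - 1) * (2 * s - 1) ≤ (x - 1) * (y - 1) := by
  obtain ⟨t, rfl⟩ : ∃ t, s = t + 1 := ⟨s - 1, by omega⟩
  obtain ⟨p, hp⟩ : ∃ p, x = t + 1 + p := ⟨x - (t + 1), by omega⟩
  obtain ⟨q, hq⟩ : ∃ q, y = t + 1 + q := ⟨y - (t + 1), by omega⟩
  have hpq : p + q = t + 1 := by omega
  have e1 : x - 1 = t + p := by omega
  have e2 : y - 1 = t + q := by omega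
  have e3 : t + 1 - 1 = t := by omega
  have e4 : 2 * (t + 1) - 1 = 2 * t + 1 := by omega
  rw [e1, e2, e3, e4]
  have e5 : (t + p) * (t + q) = t * (2 * t + 1) + p * q + t * (p + q - (t + 1)) := by
    rw [hpq, Nat.sub_self, Nat.mul_zero, Nat.add_zero]
    have : (t + p) * (t + q) = t * t + t * (p + q) + p * q := by ring
    rw [this, hpq]
    ring
  rw [e5]
  omega

end XFIN

theorem p_FIN (hUP : S_UP) (hLOW : S_LOW) (hCHO : S_CHO) : S_FIN := by
  classical
  intro s hs
  have hA : (A (2 * s)).card = 2 * s := by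
    unfold A
    rw [Finset.card_image_of_injective _ XFIN.pa_inj, XFIN.U_card _ (by omega)]
  have hB : (B (2 * s)).card = 2 * s := by
    unfold B
    rw [Finset.card_image_of_injective _ XFIN.pb_inj, XFIN.U_card _ (by omega)]
  have hAz : ∀ p ∈ A (2 * s), p 2 = 1 := by
    intro p hp
    obtain ⟨u, _, rfl⟩ := Finset.mem_image.1 hp
    exact XFIN.pa_z u
  have hBz : ∀ p ∈ B (2 * s), p 2 = -1 := by
    intro p hp
    obtain ⟨u, _, rfl⟩ := Finset.mem_image.1 hp
    exact XFIN.pb_z u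
  have hAB : Disjoint (A (2 * s)) (B (2 * s)) := by
    rw [Finset.disjoint_left]
    intro p h1 h2
    have := (hAz p h1).symm.trans (hBz p h2)
    norm_num at this
  have hABc : (A (2 * s) ∪ B (2 * s)).card = 4 * s := by
    rw [Finset.card_union_of_disjoint hAB, hA, hB]
    ring
  have hABM : Disjoint (A (2 * s) ∪ B (2 * s)) M := by
    rw [Finset.disjoint_left]
    intro p h1 h2
    have h3 := XFIN.M_z p h2
    rcases Finset.mem_union.1 h1 with h | h
    · have := (hAz p h).symm.trans h3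
      norm_num at this
    · have := (hBz p h).symm.trans h3
      norm_num at this
  have hP : (A (2 * s) ∪ B (2 * s) ∪ M).card = 4 * s + 3 := by
    rw [Finset.card_union_of_disjoint hABM, hABc, XFIN.M_card]
  refine ⟨A (2 * s) ∪ B (2 * s) ∪ M, hP, ?_, (A (2 * s) ∪ B (2 * s)).powersetCard (3 * s), ?_, ?_, ?_⟩
  · intro T hT
    have := hUP (2 * s) T (by omega) hT.del
    omega
  · exact Finset.powersetCard_mono Finset.subset_union_left
  · rw [Finset.card_powersetCard, Finset.card_powersetCard, hP, hABc]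
    exact hCHO s
  · intro R hR T hT
    rw [Finset.mem_powersetCard] at hR
    obtain ⟨hRs, hRc⟩ := hR
    obtain ⟨X, hX⟩ : ∃ X : Finset ℝ, X = (U (2 * s)).filter fun u => pa u ∈ R := ⟨_, rfl⟩
    obtain ⟨Y, hY⟩ : ∃ Y : Finset ℝ, Y = (U (2 * s)).filter fun u => pb u ∈ R := ⟨_, rfl⟩
    have hRXY : R = X.image pa ∪ Y.image pb := by
      ext p
      rw [Finset.mem_union, Finset.mem_image, Finset.mem_image]
      constructor
      · intro hp
        rcases Finset.mem_union.1 (hRs hp) with h | h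
        · obtain ⟨u, hu, rfl⟩ := Finset.mem_image.1 h
          exact Or.inl ⟨u, by rw [hX, Finset.mem_filter]; exact ⟨hu, hp⟩, rfl⟩
        · obtain ⟨u, hu, rfl⟩ := Finset.mem_image.1 h
          exact Or.inr ⟨u, by rw [hY, Finset.mem_filter]; exact ⟨hu, hp⟩, rfl⟩
      · rintro (⟨u, hu, rfl⟩ | ⟨u, hu, rfl⟩)
        · rw [hX, Finset.mem_filter] at hu
          exact hu.2
        · rw [hY, Finset.mem_filter] at hu
          exact hu.2
    have hdis : Disjoint (X.image pa) (Y.image pb) := by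
      rw [Finset.disjoint_left]
      intro p h1 h2
      obtain ⟨u, _, rfl⟩ := Finset.mem_image.1 h1
      obtain ⟨v, _, hv⟩ := Finset.mem_image.1 h2
      have h3 : pb v 2 = pa u 2 := by rw [hv]
      rw [XFIN.pa_z, XFIN.pb_z] at h3
      norm_num at h3
    have hcard : X.card + Y.card = 3 * s := by
      rw [← hRc, hRXY, Finset.card_union_of_disjoint hdis, Finset.card_image_of_injective _ XFIN.pa_inj,
        Finset.card_image_of_injective _ XFIN.pb_inj]
    have hXc : X.card ≤ 2 * s := by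
      rw [hX]
      exact (Finset.card_filter_le _ _).trans (XFIN.U_card _ (by omega)).le
    have hYc : Y.card ≤ 2 * s := by
      rw [hY]
      exact (Finset.card_filter_le _ _).trans (XFIN.U_card _ (by omega)).le
    rw [hRXY] at hT
    exact (XFIN.arith s X.card Y.card hs hXc hYc hcard).trans (hLOW X Y T hT)

end Pool.Ric
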