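import Pool.Agent.Work.MP_e350e5_ric.Interface

set_option autoImplicit false

namespace Pool.Ric

open Finset

theorem UPx_M : M.card ≤ 3 := by
  unfold M
  exact Finset.card_le_three

theorem UPx_D : (insert M (M.powersetCard 2)).card ≤ 4 := by
  refine (Finset.card_insert_le _ _).trans ?_
  rw [Finset.card_powersetCard]
  have h := UPx_M
  have h2 : M.card.choose 2 ≤ Nat.choose 3 2 := Nat.choose_le_choose 2 h
  have h3 : Nat.choose 3 2 = 3 := by decide
  omega

/-- the tetrahedra on one line -/
noncomputable def UPx_f (n : ℕ) (p : ℝ → EuclideanSpace ℝ (Fin 3))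
    (x : ℕ × Finset (EuclideanSpace ℝ (Fin 3))) : Finset (EuclideanSpace ℝ (Fin 3)) :=
  if x.2.card = 3 then {p ((x.1 : ℝ) / (2 * n))} ∪ x.2
  else {p ((x.1 : ℝ) / (2 * n)), p (((x.1 + 1 : ℕ) : ℝ) / (2 * n))} ∪ x.2

theorem UPx_line (n : ℕ) (hn : 1 ≤ n) (p : ℝ → EuclideanSpace ℝ (Fin 3))
    (hp : Function.Injective p) (S : Finset (EuclideanSpace ℝ (Fin 3)))
    (o : EuclideanSpace ℝ (Fin 3)) (r : ℝ) (hS : ∀ q ∈ S, dist q o = r) (hc : S.card = 4)
    (hsub : S ⊆ (U n).image p ∪ M) (hP : ∀ u ∈ U n, r ≤ dist (p u) o)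
    (hcv : ∀ u w v : ℝ, u < w → w < v → dist (p u) o = r → dist (p v) o = r →
      dist (p w) o < r) :
    S ∈ ((range n) ×ˢ (insert M (M.powersetCard 2))).image (UPx_f n p) := by
  have hn0 : (0 : ℝ) < 2 * n := by
    have : (1 : ℝ) ≤ n := by exact_mod_cast hn
    linarith
  have hlt : ∀ i j : ℕ, i < j → (i : ℝ) / (2 * n) < (j : ℝ) / (2 * n) := by
    intro i j hij
    have : (i : ℝ) < j := by exact_mod_cast hij
    exact div_lt_div_of_pos_right this hn0
  have hU : ∀ i, i < n → (i : ℝ) / (2 * n) ∈ U n := by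
    intro i hi
    unfold U
    exact Finset.mem_image.mpr ⟨i, Finset.mem_range.mpr hi, rfl⟩
  let I : Finset ℕ := (range n).filter (fun i => p ((i : ℝ) / (2 * n)) ∈ S)
  let SA : Finset (EuclideanSpace ℝ (Fin 3)) := I.image (fun i : ℕ => p ((i : ℝ) / (2 * n)))
  let SM : Finset (EuclideanSpace ℝ (Fin 3)) := S \ SA
  have hSA : SA ⊆ S := by
    intro q hq
    obtain ⟨i, hi, rfl⟩ := Finset.mem_image.mp hq
    exact (Finset.mem_filter.mp hi).2
  have hSM : SM ⊆ M := by
    intro q hq
    obtain ⟨h1, h2⟩ := Finset.mem_sdiff.mp hq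
    rcases Finset.mem_union.mp (hsub h1) with h3 | h3
    · exfalso
      apply h2
      obtain ⟨u, hu, rfl⟩ := Finset.mem_image.mp h3
      unfold U at hu
      obtain ⟨i, hi, rfl⟩ := Finset.mem_image.mp hu
      exact Finset.mem_image.mpr ⟨i, Finset.mem_filter.mpr ⟨hi, h1⟩, rfl⟩
    · exact h3
  have hcard : SA.card + SM.card = 4 := by
    have := Finset.card_sdiff_add_card_eq_card hSA
    show SA.card + (S \ SA).card = 4
    omega
  have hun : SA ∪ SM = S := Finset.union_sdiff_of_subset hSA
  have hM3 := (Finset.card_le_card hSM).trans UPx_M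
  have hne : I.Nonempty := by
    rw [Finset.nonempty_iff_ne_empty]
    intro h0
    have : SA.card = 0 := by
      show (I.image _).card = 0
      rw [h0]; simp
    omega
  have hstep : ∀ i ∈ I, ∀ j ∈ I, i < j → j = i + 1 := by
    intro i hi j hj hij
    by_contra hne
    have h1 : i + 1 < j := by omega
    obtain ⟨hi1, hi2⟩ := Finset.mem_filter.mp hi
    obtain ⟨hj1, hj2⟩ := Finset.mem_filter.mp hj
    have hj3 := Finset.mem_range.mp hj1
    have h2 := hcv _ _ _ (hlt i (i + 1) (by omega)) (hlt (i + 1) j h1) (hS _ hi2) (hS _ hj2)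
    have h3 := hP _ (hU (i + 1) (by omega))
    linarith
  obtain ⟨i, hi, hmin⟩ := Finset.exists_min_image I id hne
  have hI : ∀ j ∈ I, j = i ∨ j = i + 1 := by
    intro j hj
    rcases Nat.lt_or_ge i j with h | h
    · exact Or.inr (hstep i hi j hj h)
    · have := hmin j hj
      simp only [id] at this
      left; omega
  have hir : i ∈ range n := (Finset.mem_filter.mp hi).1
  by_cases hi1 : i + 1 ∈ I
  · have hIe : I = {i, i + 1} := by
      ext j
      simp only [Finset.mem_insert, Finset.mem_singleton]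
      constructor
      · exact hI j
      · rintro (rfl | rfl)
        · exact hi
        · exact hi1
    have hSAe : SA = {p ((i : ℝ) / (2 * n)), p (((i + 1 : ℕ) : ℝ) / (2 * n))} := by
      show I.image _ = _
      rw [hIe, Finset.image_insert, Finset.image_singleton]
    have hneq : p ((i : ℝ) / (2 * n)) ≠ p (((i + 1 : ℕ) : ℝ) / (2 * n)) := by
      intro h
      have := hp h
      exact absurd this (ne_of_lt (hlt i (i + 1) (by omega)))
    have hSAc : SA.card = 2 := by
      rw [hSAe]; exact Finset.card_pair hneq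
    have hSMc : SM.card = 2 := by omega
    refine Finset.mem_image.mpr ⟨(i, SM), Finset.mem_product.mpr ⟨hir, ?_⟩, ?_⟩
    · exact Finset.mem_insert_of_mem (Finset.mem_powersetCard.mpr ⟨hSM, hSMc⟩)
    · unfold UPx_f
      rw [if_neg (by show ¬ SM.card = 3; omega)]
      show {p ((i : ℝ) / (2 * n)), p (((i + 1 : ℕ) : ℝ) / (2 * n))} ∪ SM = S
      rw [← hSAe, hun]
  · have hIe : I = {i} := by
      ext j
      simp only [Finset.mem_singleton]
      constructor
      · intro hj
        rcases hI j hj with h | h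
        · exact h
        · exact absurd (h ▸ hj) hi1
      · rintro rfl
        exact hi
    have hSAe : SA = {p ((i : ℝ) / (2 * n))} := by
      show I.image _ = _
      rw [hIe, Finset.image_singleton]
    have hSAc : SA.card = 1 := by
      rw [hSAe]; exact Finset.card_singleton _
    have hSMc : SM.card = 3 := by omega
    have hSMe : SM = M := Finset.eq_of_subset_of_card_le hSM (by rw [hSMc]; exact UPx_M)
    refine Finset.mem_image.mpr ⟨(i, SM), Finset.mem_product.mpr ⟨hir, ?_⟩, ?_⟩
    · rw [hSMe]; exact Finset.mem_insert_self _ _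
    · unfold UPx_f
      rw [if_pos (by show SM.card = 3; omega)]
      show {p ((i : ℝ) / (2 * n))} ∪ SM = S
      rw [← hSAe, hun]

theorem UPx_pa : Function.Injective pa := by
  intro u v h
  have := congrArg (fun q : EuclideanSpace ℝ (Fin 3) => q 0) h
  simpa [pa] using this

theorem UPx_pb : Function.Injective pb := by
  intro u v h
  have := congrArg (fun q : EuclideanSpace ℝ (Fin 3) => q 1) h
  simpa [pb] using this

theorem UPx_U (n : ℕ) (hn : 1 ≤ n) (u : ℝ) (hu : u ∈ U n) : 0 ≤ u ∧ u ≤ 1 / 2 := by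
  unfold U at hu
  obtain ⟨i, hi, rfl⟩ := Finset.mem_image.mp hu
  have hi := Finset.mem_range.mp hi
  have h1 : (1 : ℝ) ≤ n := by exact_mod_cast hn
  have h2 : (i : ℝ) ≤ n := by exact_mod_cast hi.le
  refine ⟨by positivity, ?_⟩
  rw [div_le_div_iff₀ (by linarith) (by norm_num)]
  linarith

theorem p_UPx (hAB : S_AB) (hCV : S_CV) : S_UP := by
  intro n T hn hT
  let X := (range n) ×ˢ (insert M (M.powersetCard 2))
  have hXc : X.card ≤ n * 4 := by
    show ((range n) ×ˢ (insert M (M.powersetCard 2))).card ≤ n * 4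
    rw [Finset.card_product, Finset.card_range]
    exact Nat.mul_le_mul_left _ UPx_D
  have hsub : T ⊆ X.image (UPx_f n pa) ∪ X.image (UPx_f n pb) := by
    intro S hS
    obtain ⟨h1, h2, -, o, r, h3, h4⟩ := hT S hS
    have hPa : ∀ u ∈ U n, r ≤ dist (pa u) o := fun u hu =>
      h4 _ (Finset.mem_union_left _ (Finset.mem_union_left _ (Finset.mem_image_of_mem _ hu)))
    have hPb : ∀ u ∈ U n, r ≤ dist (pb u) o := fun u hu =>
      h4 _ (Finset.mem_union_left _ (Finset.mem_union_right _ (Finset.mem_image_of_mem _ hu)))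
    have hM : ∀ m ∈ M, r ≤ dist m o := fun m hm => h4 _ (Finset.mem_union_right _ hm)
    by_cases hA : ∃ u ∈ U n, pa u ∈ S
    · obtain ⟨u, hu, huS⟩ := hA
      apply Finset.mem_union_left
      refine UPx_line n hn pa UPx_pa S o r h3 h2 ?_ hPa
        (fun a b c hab hbc => (hCV a b c o r hab hbc).1)
      intro q hq
      rcases Finset.mem_union.mp (h1 hq) with h5 | h5
      · rcases Finset.mem_union.mp h5 with h6 | h6
        · exact Finset.mem_union_left _ h6
        · exfalso
          obtain ⟨v, hv, rfl⟩ := Finset.mem_image.mp h6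
          obtain ⟨hu1, hu2⟩ := UPx_U n hn u hu
          obtain ⟨hv1, hv2⟩ := UPx_U n hn v hv
          exact hAB u v hu1 hu2 hv1 hv2 o r (h3 _ huS) (h3 _ hq) hM
      · exact Finset.mem_union_right _ h5
    · apply Finset.mem_union_right
      refine UPx_line n hn pb UPx_pb S o r h3 h2 ?_ hPb
        (fun a b c hab hbc => (hCV a b c o r hab hbc).2)
      intro q hq
      rcases Finset.mem_union.mp (h1 hq) with h5 | h5
      · rcases Finset.mem_union.mp h5 with h6 | h6
        · exfalso
          obtain ⟨v, hv, rfl⟩ := Finset.mem_image.mp h6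
          exact hA ⟨v, hv, hq⟩
        · exact Finset.mem_union_left _ h6
      · exact Finset.mem_union_right _ h5
  calc T.card ≤ (X.image (UPx_f n pa) ∪ X.image (UPx_f n pb)).card := Finset.card_le_card hsub
    _ ≤ (X.image (UPx_f n pa)).card + (X.image (UPx_f n pb)).card := Finset.card_union_le _ _
    _ ≤ X.card + X.card := Nat.add_le_add Finset.card_image_le Finset.card_image_le
    _ ≤ 8 * n := by omega

end Pool.Ric
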