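import Mathlib

/-!
# MP_e350e5_lc: random subsets of sets with small Delaunay triangulations

`A` = points `(u, 0, 1)`, `B` = points `(0, v, -1)`, `u, v = i / (2 n)`, `i < n`, `M` = three points in the plane
`z = 0`. Every sphere through a point of `A` and a point of `B` has a point of `M` in its interior, so the Delaunay
triangulations of `A ∪ B ∪ M` have at most `8 n` tetrahedra; those of `A' ∪ B'` have at least
`(|A'| - 1) (|B'| - 1)`.
-/

set_option autoImplicit false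

namespace Pool.Ric

/-- `S` is a set of four affinely independent points of `P` and the open ball bounded by its circumscribed sphere
contains no point of `P` -/
def IsDel (P S : Finset (EuclideanSpace ℝ (Fin 3))) : Prop :=
  S ⊆ P ∧ S.card = 4 ∧ AffineIndependent ℝ (fun p : S => (p : EuclideanSpace ℝ (Fin 3))) ∧
    ∃ (o : EuclideanSpace ℝ (Fin 3)) (r : ℝ), (∀ p ∈ S, dist p o = r) ∧ ∀ p ∈ P, r ≤ dist p o

/-- `T` is a Delaunay triangulation of `P` -/
structure IsTri (P : Finset (EuclideanSpace ℝ (Fin 3))) (T : Finset (Finset (EuclideanSpace ℝ (Fin 3)))) :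
    Prop where
  del : ∀ S ∈ T, IsDel P S
  cover : ∀ q, (∃ S ∈ T, q ∈ convexHull ℝ (S : Set (EuclideanSpace ℝ (Fin 3)))) ↔
    q ∈ convexHull ℝ (P : Set (EuclideanSpace ℝ (Fin 3)))
  inter : ∀ S ∈ T, ∀ S' ∈ T, convexHull ℝ (S : Set (EuclideanSpace ℝ (Fin 3))) ∩ convexHull ℝ S' =
    convexHull ℝ ((S : Set (EuclideanSpace ℝ (Fin 3))) ∩ S')
  vert : ∀ p ∈ P, ∃ S ∈ T, p ∈ S

/-- the point `(u, 0, 1)` -/
noncomputable def pa (u : ℝ) : EuclideanSpace ℝ (Fin 3) := WithLp.toLp 2 ![u, 0, 1]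

/-- the point `(0, v, -1)` -/
noncomputable def pb (v : ℝ) : EuclideanSpace ℝ (Fin 3) := WithLp.toLp 2 ![0, v, -1]

/-- the three points of `M`: `0`, `(1/2, 0, 0)`, `(0, 1/2, 0)` -/
noncomputable def M : Finset (EuclideanSpace ℝ (Fin 3)) :=
  {WithLp.toLp 2 ![0, 0, 0], WithLp.toLp 2 ![1 / 2, 0, 0], WithLp.toLp 2 ![0, 1 / 2, 0]}

/-- the numbers `i / (2 n)`, `i < n` -/
noncomputable def U (n : ℕ) : Finset ℝ := (Finset.range n).image fun i : ℕ => (i : ℝ) / (2 * n)

/-- the points on the first line -/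
noncomputable def A (n : ℕ) : Finset (EuclideanSpace ℝ (Fin 3)) := (U n).image pa

/-- the points on the second line -/
noncomputable def B (n : ℕ) : Finset (EuclideanSpace ℝ (Fin 3)) := (U n).image pb

/-- `AB`: a tetrahedron with an empty ball has no vertices in both `A` and `B`. With `r = dist a o = dist b o` and
`r ≤ dist m o` for the three points: `(1 - u - v) |c|^2 + u |m2 - c|^2 + v |m3 - c|^2 ≥ (|a - c|^2 + |b - c|^2) / 2`,
but the difference is `(u + v) / 4 - 1 - (u^2 + v^2) / 2 < 0`. -/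
def S_AB : Prop := ∀ u v : ℝ, 0 ≤ u → u ≤ 1 / 2 → 0 ≤ v → v ≤ 1 / 2 →
  ∀ (o : EuclideanSpace ℝ (Fin 3)) (r : ℝ), dist (pa u) o = r → dist (pb v) o = r →
    (∀ m ∈ M, r ≤ dist m o) → False

/-- `CV`: no point of the line strictly between two points of a sphere is outside of the open ball. -/
def S_CV : Prop := ∀ (u w v : ℝ) (o : EuclideanSpace ℝ (Fin 3)) (r : ℝ), u < w → w < v →
  (dist (pa u) o = r → dist (pa v) o = r → dist (pa w) o < r) ∧
  (dist (pb u) o = r → dist (pb v) o = r → dist (pb w) o < r)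

/-- `UP` (uses `AB`, `CV`): at most `8 n` tetrahedra. A tetrahedron `S` has its vertices in `A ∪ M` or in `B ∪ M`
(`AB`). In the first case `S ∩ A` has one or two points (three points of `M`), and if two, they are consecutive
(`CV`); so `S` is `{pa (i / 2 n)} ∪ M` or `{pa (i / 2 n), pa ((i + 1) / 2 n)} ∪ D`, `D ⊆ M` with two elements:
at most `4 n` sets. -/
def S_UP : Prop := ∀ (n : ℕ) (T : Finset (Finset (EuclideanSpace ℝ (Fin 3)))), 1 ≤ n →
  (∀ S ∈ T, IsDel (A n ∪ B n ∪ M) S) → T.card ≤ 8 * n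

/-- `QT`: consecutive pairs give tetrahedra. Center `((u + u') / 2, (v + v') / 2, (v v' - u u') / 4)`, power of
`pa w` is `(w - u) (w - u')`, power of `pb w` is `(w - v) (w - v')`. -/
def S_QT : Prop := ∀ (X Y : Finset ℝ) (T : Finset (Finset (EuclideanSpace ℝ (Fin 3)))) (u u' v v' : ℝ),
  IsTri (X.image pa ∪ Y.image pb) T → u ∈ X → u' ∈ X → v ∈ Y → v' ∈ Y → u < u' → v < v' →
  (∀ w ∈ X, w ≤ u ∨ u' ≤ w) → (∀ w ∈ Y, w ≤ v ∨ v' ≤ w) →
  ({pa u, pa u', pb v, pb v'} : Finset (EuclideanSpace ℝ (Fin 3))) ∈ T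

/-- `LOW` (uses `QT`): injection from the pairs (all of `X` but the largest) × (all of `Y` but the largest). -/
def S_LOW : Prop := ∀ (X Y : Finset ℝ) (T : Finset (Finset (EuclideanSpace ℝ (Fin 3)))),
  IsTri (X.image pa ∪ Y.image pb) T → (X.card - 1) * (Y.card - 1) ≤ T.card

/-- `CHO`: `4 ((3 s + j)) ≥ ...`: at least one `64`-th of the subsets avoid three points. -/
def S_CHO : Prop := ∀ s : ℕ, (4 * s + 3).choose (3 * s) ≤ 64 * (4 * s).choose (3 * s)

/-- The theorem: `n = 2 s`. -/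
def S_FIN : Prop := ∀ s : ℕ, 1 ≤ s → ∃ P : Finset (EuclideanSpace ℝ (Fin 3)), P.card = 4 * s + 3 ∧
  (∀ T, IsTri P T → T.card ≤ 16 * s) ∧ ∃ F : Finset (Finset (EuclideanSpace ℝ (Fin 3))),
    F ⊆ P.powersetCard (3 * s) ∧ (P.powersetCard (3 * s)).card ≤ 64 * F.card ∧
    ∀ R ∈ F, ∀ T, IsTri R T → (s - 1) * (2 * s - 1) ≤ T.card

end Pool.Ric
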